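import Pool.Agent.H19.NewtC

set_option maxHeartbeats 400000

namespace Pool.Agent.Results.MP_db5e86_an.NoShare

open Polynomial

/-- The denominator `Q P + P'`. -/
noncomputable def den (P Q : ℂ[X]) : ℂ[X] := Q * P + derivative P

/-- The rational function `R = a (1 + P / (Q P + P'))`, read off the zeros of the denominator. -/
noncomputable def R (a : ℂ) (P Q : ℂ[X]) (z : ℂ) : ℂ := a * (1 + P.eval z / (den P Q).eval z)

theorem result (a : ℂ) (P Q : ℂ[X]) (ha : a ≠ 0)
    (hs : ∀ z : ℂ, P.eval z = 0 → (derivative P).eval z ≠ 0) (hQ : Q ≠ 0)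
    (hnc : ¬ ∃ k : ℂ, ∀ z : ℂ, (den P Q).eval z ≠ 0 → R a P Q z = k) :
    ∃ z : ℂ, (den P Q).eval z ≠ 0 ∧ deriv (R a P Q) z = a ∧ R a P Q z ≠ a := by
  by_contra hcon
  have hder : ∀ z, (den P Q).eval z ≠ 0 →
      deriv (R a P Q) z = a * (1 - Pool.Agent.H19.Newt.ND P (den P Q) z) := by
    intro z hz
    have h := ((((P.hasDerivAt z).div ((den P Q).hasDerivAt z) hz).const_add 1).const_mul a).deriv
    refine h.trans ?_
    simp [Pool.Agent.H19.Newt.ND]
  have hcrit : ∀ z, (den P Q).eval z ≠ 0 → Pool.Agent.H19.Newt.ND P (den P Q) z = 0 →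
      P.eval z = 0 := by
    intro z hz h0
    by_contra hPz
    refine hcon ⟨z, hz, by rw [hder z hz, h0]; ring, fun h => ?_⟩
    have h1 : a * (P.eval z / (den P Q).eval z) = 0 := by
      simp only [R] at h
      linear_combination h
    simp [ha, hPz, hz] at h1
  by_cases hP : 0 < P.natDegree
  · obtain ⟨p, hp⟩ := Complex.exists_root (natDegree_pos_iff_degree_pos.1 hP)
    exact Pool.Agent.H19.Newt.main P Q hQ hs hp hcrit
  · obtain ⟨c, rfl⟩ : ∃ c, P = C c := ⟨_, eq_C_of_natDegree_eq_zero (by omega)⟩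
    have hc : c ≠ 0 := by rintro rfl; simpa using hs 0
    by_cases hQd : 0 < Q.natDegree
    · refine Pool.Agent.H19.Newt.const_case Q hQd fun z hz h0 => hc ?_
      have hD : (den (C c) Q).eval z ≠ 0 := by simp [den, hz, hc]
      have := hcrit z hD (by
        simp only [Pool.Agent.H19.Newt.ND, den, derivative_C, add_zero, derivative_mul, mul_zero,
          eval_mul, eval_C, eval_zero, zero_mul]
        simp only [eval_add, eval_pow] at h0
        field_simp
        linear_combination c ^ 2 * h0)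
      simpa using this
    · obtain ⟨q, rfl⟩ : ∃ q, Q = C q := ⟨_, eq_C_of_natDegree_eq_zero (by omega)⟩
      exact hnc ⟨a * (1 + c / (q * c)), fun z _ => by simp [R, den]⟩

end Pool.Agent.Results.MP_db5e86_an.NoShare
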